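import Pool.Agent.helper74.FD.SpecG

/-!
# MP_07c750, project FD, row `fd:FDH`
-/

set_option autoImplicit false

open scoped MatrixGroups ContDiff Topology UpperHalfPlane ComplexConjugate
open UpperHalfPlane MeasureTheory Filter Set

namespace Pool.Agent.FD

open Pool.Agent.RS Pool.Agent.MS
open Pool.Agent.EN (XG MG mkX mkM fl pr)

/-- invariant functions descend to the quotient -/
private noncomputable def FDH_lift (Γ : Subgroup SL(2, ℝ)) (Ψ : SL(2, ℝ) → ℝ) (h : InvG Γ Ψ) : XG Γ → ℝ :=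
  Quotient.lift Ψ (by
    rintro a b ⟨γ, hγ⟩
    have h' : (γ : SL(2, ℝ)) * b = a := hγ
    rw [← h', h.2])

private theorem FDH_lift_mk (Γ : Subgroup SL(2, ℝ)) (Ψ : SL(2, ℝ) → ℝ) (h : InvG Γ Ψ) (g : SL(2, ℝ)) :
    FDH_lift Γ Ψ h (mkX Γ g) = Ψ g := rfl

private theorem FDH_lift_cont (Γ : Subgroup SL(2, ℝ)) (Ψ : SL(2, ℝ) → ℝ) (h : InvG Γ Ψ) : Continuous (FDH_lift Γ Ψ h) :=
  Continuous.quotient_lift h.1 _

private theorem FDH_int (Γ : Subgroup SL(2, ℝ)) (μ : Measure (XG Γ)) (hμ : IsProbabilityMeasure μ) (Φ : XG Γ → ℝ)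
    (hc : Continuous Φ) (h01 : ∀ x, 0 ≤ Φ x ∧ Φ x ≤ 1) : Integrable Φ μ := by
  refine Integrable.mono' (integrable_const (1 : ℝ)) hc.aestronglyMeasurable (Filter.Eventually.of_forall fun x => ?_)
  rw [Real.norm_eq_abs, abs_of_nonneg (h01 x).1]
  exact (h01 x).2

private theorem FDH_low (Γ : Subgroup SL(2, ℝ)) (hsur : Function.Surjective (mkX Γ)) (μ : Measure (XG Γ)) (hμ : IsProbabilityMeasure μ)
    (K : Set (XG Γ)) (Ψ : SL(2, ℝ) → ℝ) (h : InvG Γ Ψ) (h01 : ∀ g, 0 ≤ Ψ g ∧ Ψ g ≤ 1)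
    (h1 : ∀ g, mkX Γ g ∈ K → Ψ g = 1) :
    μ.real K ≤ ∫ x, FDH_lift Γ Ψ h x ∂μ := by
  have h01' : ∀ x, 0 ≤ FDH_lift Γ Ψ h x ∧ FDH_lift Γ Ψ h x ≤ 1 := by
    intro x
    obtain ⟨g, rfl⟩ := hsur x
    exact h01 g
  have hI := FDH_int Γ μ hμ _ (FDH_lift_cont Γ Ψ h) h01'
  have h2 := mul_meas_ge_le_integral_of_nonneg (μ := μ) (f := FDH_lift Γ Ψ h) (Filter.Eventually.of_forall fun x => (h01' x).1) hI 1
  rw [one_mul] at h2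
  refine le_trans ?_ h2
  refine measureReal_mono ?_ (measure_ne_top _ _)
  intro x hx
  obtain ⟨g, rfl⟩ := hsur x
  change 1 ≤ FDH_lift Γ Ψ h (mkX Γ g)
  rw [FDH_lift_mk, h1 _ hx]

theorem FDH_proof (hMNF : MNF_stmt) (hOME : OME_stmt) (hMU : MS.MU_stmt) (hSTB : MS.STB_stmt) (hXFL : EN.XFL_stmt) (hXTX : EN.XTX_stmt) (hDOM : QU.DOM_stmt) (hDOB : QU.DOB_stmt) : FDH_stmt := by
  intro Γ F r φ ν hΓ hF hr hφ hn hfin hν
  obtain ⟨F₀, hF₀⟩ := hDOM Γ hΓ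
  obtain ⟨-, -, -, -, hdob, -⟩ := hDOB Γ F₀ hΓ hF₀
  have hdom := (hdob F hF).2
  obtain ⟨-, hprc, hmkc, -, hsur, -, -, -, hfl, -, hmkX, hmkM⟩ := hXFL Γ
  obtain ⟨-, -, -, -, -, hex⟩ := hSTB
  obtain ⟨β, hβ⟩ := (hex (1 / 4) (by norm_num)).2
  obtain ⟨α, hα'⟩ := (hex (1 / 8) (by norm_num)).1
  have hinv : ∀ k (γ : Γ) z, ‖φ k (γ • z)‖ ^ 2 = ‖φ k z‖ ^ 2 := by
    intro k γ z
    rw [(hφ k).2.1 γ z]
  have hn0 : ∀ k, nn F₀ (φ k) = 1 := by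
    intro k
    unfold nn
    rw [← hdom _ (hinv k)]
    exact hn k
  have hν0 : ∀ V : MG Γ → ℝ, Continuous V →
      Tendsto (fun k => ∫ z in F₀, V (mkM Γ z) * ‖φ k z‖ ^ 2) atTop (𝓝 (∫ x, V x ∂ν)) := by
    intro V hV
    refine (hν V hV).congr fun k => ?_
    refine hdom _ fun γ z => ?_
    rw [hinv k γ z, (hmkM (γ • z) z).2 ⟨γ⁻¹, by rw [inv_smul_smul]⟩]
  obtain ⟨μ, hμ, hflow, hmap, hlow⟩ := hMU Γ F₀ β α r φ ν hΓ hF₀ hβ hα' hr hφ hn0 hfin hν0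
  refine ⟨μ, hμ, hflow, hmap, fun U hUo hUn hUs => ?_⟩
  have hWinv : ∀ (γ : Γ) (g : SL(2, ℝ)), mkX Γ ((γ : SL(2, ℝ)) * g) = mkX Γ g := by
    intro γ g
    exact ((hmkX g ((γ : SL(2, ℝ)) * g)).2 ⟨γ, rfl⟩).symm
  obtain ⟨θ, hθ, hθ0, hθ1⟩ := hOME Γ (mkX Γ ⁻¹' U) hΓ (hUo.preimage hmkc) (by
      obtain ⟨x, hx⟩ := hUn
      obtain ⟨g, rfl⟩ := hsur x
      exact ⟨g, hx⟩) ⟨fun γ g => by rw [mem_preimage, mem_preimage, hWinv γ g], fun g => hUs g⟩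
  set K : Set (XG Γ) := {x | ∀ t : ℝ, fl Γ t x ∉ U} with hK
  have hK0 : ∀ g, mkX Γ g ∈ K → ∀ t : ℝ, θ (g * aM t) = 0 := by
    intro g hg t
    refine hθ0 _ fun hmem => hg t ?_
    rw [hfl]
    exact hmem
  set m : ℝ := 2 * μ.real K with hm
  have hKr0 : 0 ≤ μ.real K := measureReal_nonneg
  have hKr1 : μ.real K ≤ 1 := measureReal_le_one
  have key : ∀ δ : ℝ, 0 < δ → δ ≤ 1 / 100 → m ≤ 1 + 10 * δ + 100 * Real.sqrt δ := by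
    intro δ hδ hδ1
    obtain ⟨Ψ, Ψ', r2, hI, hI', h01, h01', h1, hr2, hfinal⟩ := hMNF Γ F₀ β α θ hΓ hF₀ hβ hα' hθ hθ1 δ hδ hδ1
    have hc := FDH_lift_cont Γ Ψ hI
    have hc' := FDH_lift_cont Γ Ψ' hI'
    have g01 : ∀ x, 0 ≤ FDH_lift Γ Ψ hI x ∧ FDH_lift Γ Ψ hI x ≤ 1 := by
      intro x
      obtain ⟨g, rfl⟩ := hsur x
      exact h01 g
    have g01' : ∀ x, 0 ≤ FDH_lift Γ Ψ' hI' x ∧ FDH_lift Γ Ψ' hI' x ≤ 1 := by
      intro x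
      obtain ⟨g, rfl⟩ := hsur x
      exact h01' g
    have hi := FDH_low Γ hsur μ hμ K Ψ hI h01 (fun g hg => (h1 g (hK0 g hg)).1)
    have hi' := FDH_low Γ hsur μ hμ K Ψ' hI' h01' (fun g hg => (h1 g (hK0 g hg)).2)
    have hsum : ∫ x, (FDH_lift Γ Ψ hI x + FDH_lift Γ Ψ' hI' x) ∂μ =
        ∫ x, FDH_lift Γ Ψ hI x ∂μ + ∫ x, FDH_lift Γ Ψ' hI' x ∂μ :=
      integral_add (FDH_int Γ μ hμ _ hc g01) (FDH_int Γ μ hμ _ hc' g01')
    have hb : m - 4 * δ < ∫ x, (FDH_lift Γ Ψ hI x + FDH_lift Γ Ψ' hI' x) ∂μ := by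
      rw [hsum]
      linarith
    have hfr := hlow (fun x => FDH_lift Γ Ψ hI x + FDH_lift Γ Ψ' hI' x) (m - 4 * δ) (hc.add hc') hb
    have hev : ∀ᶠ k in atTop, r2 ≤ r k := hr.eventually (eventually_ge_atTop r2)
    obtain ⟨k, ⟨t, ht1, ht2, ht3⟩, hk⟩ := (hfr.and_eventually hev).exists
    refine hfinal (r k) m t (φ k) hk ?_ (hn0 k) (by linarith) (by linarith) ht1 ht2 ht3
    exact ⟨(hφ k).1.of_le (WithTop.coe_le_coe.2 (le_top : (2 : ℕ∞) ≤ ⊤)), (hφ k).2.1, fun z => by rw [(hφ k).2.2 z]⟩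
  have hm1 : m ≤ 1 := by
    by_contra hcon
    push Not at hcon
    have hpos : 0 < (m - 1) / 220 := by linarith
    have hδ0 : 0 < min (1 / 100) (((m - 1) / 220) ^ 2) := lt_min (by norm_num) (by positivity)
    have h1 := key _ hδ0 (min_le_left _ _)
    set δ := min (1 / 100) (((m - 1) / 220) ^ 2) with hδ
    have h2 : Real.sqrt δ ≤ (m - 1) / 220 := by
      rw [← Real.sqrt_sq hpos.le]
      exact Real.sqrt_le_sqrt (min_le_right _ _)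
    have h3 : Real.sqrt δ ≤ 1 / 10 := by
      have : (1 : ℝ) / 10 = Real.sqrt (1 / 100) := by
        rw [show (1 : ℝ) / 100 = (1 / 10) ^ 2 by norm_num, Real.sqrt_sq (by norm_num)]
      rw [this]
      exact Real.sqrt_le_sqrt (min_le_left _ _)
    have h4 : δ = Real.sqrt δ * Real.sqrt δ := (Real.mul_self_sqrt hδ0.le).symm
    have h5 := Real.sqrt_nonneg δ
    nlinarith
  have h1 : μ.real K ≤ 1 / 2 := by linarith
  refine (ENNReal.toReal_le_toReal (measure_ne_top _ _) (by norm_num)).1 ?_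
  have h2 : ((1 : ENNReal) / 2).toReal = 1 / 2 := by simp
  rw [h2]
  exact h1

end Pool.Agent.FD
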