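import Pool.Agent.helper74.FD.SpecF

/-!
# MP_07c750, project FD, row `fd:OSI`
-/

set_option autoImplicit false

open MeasureTheory Filter Set
open scoped ContDiff Topology ComplexConjugate

namespace Pool.Agent.FD

/-- summability of `1/(1+m²)` over the integers -/
private theorem OSI_sum1 : Summable (fun m : ℤ => 1 / (1 + (m : ℝ) ^ 2)) := by
  have h1 : Summable (fun m : ℤ => 1 / (m : ℝ) ^ 2) := Real.summable_one_div_int_pow.2 (by norm_num)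
  have h2 : Summable (fun m : ℤ => if m = 0 then (1 : ℝ) else 0) := (hasSum_ite_eq (0 : ℤ) (1 : ℝ)).summable
  refine Summable.of_nonneg_of_le (fun m => by positivity) (fun m => ?_) (h1.add h2)
  by_cases hm : m = 0
  · subst hm; simp
  · have h3 : (m : ℝ) ≠ 0 := by exact_mod_cast hm
    have h4 : 0 < (m : ℝ) ^ 2 := by positivity
    simp only [hm, if_false, add_zero]
    exact one_div_le_one_div_of_le h4 (by linarith)

private theorem OSI_term (x : ℝ) (j : ℤ) : 1 / (1 + (x - j) ^ 2) ≤ 4 * (1 / (1 + (((j - ⌊x⌋ : ℤ) : ℝ)) ^ 2)) := by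
  have h0 : (⌊x⌋ : ℝ) ≤ x := Int.floor_le x
  have h1 : x < ⌊x⌋ + 1 := Int.lt_floor_add_one x
  rw [Int.cast_sub]
  generalize (⌊x⌋ : ℝ) = a at *
  generalize (j : ℝ) = b at *
  rw [mul_one_div, div_le_div_iff₀ (by positivity) (by positivity)]
  have h2 : (x - a) ^ 2 ≤ 1 := by nlinarith
  nlinarith [sq_nonneg ((b - a) - 4 * (x - a) / 3)]

private theorem OSI_bd : ∃ T : ℝ, 0 < T ∧ ∀ (x : ℝ) (Q : Finset ℤ), ∑ j ∈ Q, 1 / (1 + (x - (j : ℝ)) ^ 2) ≤ T := by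
  refine ⟨4 * ∑' m : ℤ, 1 / (1 + (m : ℝ) ^ 2), ?_, ?_⟩
  · have h := OSI_sum1.sum_le_tsum {(0 : ℤ)} (fun i _ => by positivity)
    simp only [Finset.sum_singleton, Int.cast_zero] at h
    norm_num at h ⊢
    linarith
  intro x Q
  have hs : Summable (fun j : ℤ => 1 / (1 + (((j - ⌊x⌋ : ℤ) : ℝ)) ^ 2)) := (Equiv.subRight ⌊x⌋).summable_iff.2 OSI_sum1
  have ht : ∑' j : ℤ, 1 / (1 + (((j - ⌊x⌋ : ℤ) : ℝ)) ^ 2) = ∑' m : ℤ, 1 / (1 + (m : ℝ) ^ 2) :=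
    (Equiv.subRight ⌊x⌋).tsum_eq (fun m : ℤ => 1 / (1 + (m : ℝ) ^ 2))
  calc ∑ j ∈ Q, 1 / (1 + (x - (j : ℝ)) ^ 2) ≤ ∑ j ∈ Q, 4 * (1 / (1 + (((j - ⌊x⌋ : ℤ) : ℝ)) ^ 2)) := Finset.sum_le_sum (fun j _ => OSI_term x j)
    _ = 4 * ∑ j ∈ Q, 1 / (1 + (((j - ⌊x⌋ : ℤ) : ℝ)) ^ 2) := by rw [Finset.mul_sum]
    _ ≤ 4 * ∑' m : ℤ, 1 / (1 + (m : ℝ) ^ 2) := by
        rw [← ht]
        exact mul_le_mul_of_nonneg_left (hs.sum_le_tsum Q (fun i _ => by positivity)) (by norm_num)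

theorem OSI_proof (hFT0 : FT0_stmt) (hFT1 : FT1_stmt) (hBM1 : BM1_stmt) (hPRD : PRD_stmt) (hPRF : PRF_stmt) (hLCQ : LCQ_stmt) : OSI_stmt := by
  intro ν hν hν4
  obtain ⟨κ, χ, C1, hκc, hκs, -, hχκ, hχc, hχi, hχ1, hχ9, hχd⟩ := hBM1
  obtain ⟨T, hT, hTb⟩ := OSI_bd
  have hC1 : 0 < C1 := by
    have h1 := hχ9 0 (by simp)
    have h2 := hχd 0
    have h3 := le_abs_self (χ 0)
    norm_num at h2
    linarith
  have hC2 : 0 < C1 * T := mul_pos hC1 hT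
  obtain ⟨C, hC, hL⟩ := hLCQ ν ((81 / 200) / (C1 * T)) hν hν4 (by positivity)
  refine ⟨min 1 ((81 / 200) / C), lt_min one_pos (by positivity), min_le_left _ _, ?_⟩
  intro X f u hX hf hu
  obtain ⟨-, -, -, -, ⟨M, hM⟩, -, hg, -, -⟩ := hFT1 X f hf
  have hfc : Continuous f := hf.cont
  have hgc : Continuous (fun x => ‖f x‖ ^ 2) := by fun_prop
  have hg0 : ∀ x, 0 ≤ ‖f x‖ ^ 2 := fun x => by positivity
  -- the localised functions
  have hκi : Integrable (fti κ) := by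
    have h1 : fti κ = fun x => ((χ x : ℝ) : ℂ) := funext (fun x => (hχκ x).symm)
    rw [h1]; exact hχi.ofReal
  have hPor : Por (ν / 2) (1 / (4 * ν)) (fat (1 / 16) X) := by
    have h1 := hPRF.1 ν 1 (1 / 16) X hν one_pos (by norm_num) hX
    have h2 : max 1 (4 * (1 / 16) / ν) = 1 / (4 * ν) := by
      have h3 : 4 * (1 / 16) / ν = 1 / (4 * ν) := by field_simp; norm_num
      rw [h3, max_eq_right]
      rw [le_div_iff₀ (by positivity)]; linarith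
    rw [h2] at h1; exact h1
  have hsq : ∀ (j : ℤ) (x : ℝ), ‖f x * fti κ (x - j)‖ ^ 2 = ‖f x‖ ^ 2 * χ (x - j) ^ 2 := by
    intro j x
    rw [← hχκ, norm_mul, mul_pow, Complex.norm_real, Real.norm_eq_abs, sq_abs]
  have hχ2 : ∀ y, χ y ^ 2 ≤ 1 := fun y => by
    have := hχ1 y
    rw [← sq_abs]; nlinarith [abs_nonneg (χ y)]
  have hχ2' : ∀ y, χ y ^ 2 ≤ C1 * (1 / (1 + y ^ 2)) := fun y => by
    have h1 := hχ1 y
    have h2 := hχd y
    rw [mul_one_div]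
    have h3 : χ y ^ 2 ≤ |χ y| := by rw [← sq_abs]; nlinarith [abs_nonneg (χ y)]
    linarith
  have hgi : ∀ j : ℤ, Integrable (fun x => ‖f x‖ ^ 2 * χ (x - j) ^ 2) := by
    intro j
    refine hg.mono' (by fun_prop) (Eventually.of_forall fun x => ?_)
    rw [Real.norm_eq_abs, abs_of_nonneg (by positivity)]
    have := mul_le_mul_of_nonneg_left (hχ2 (x - j)) (hg0 x)
    linarith
  have key : ∀ j : ℤ, (81 / 100) * ∫ x in Ioc (j : ℝ) (j + 1), ‖f x‖ ^ 2 ≤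
      C * (∫ x in Ioc (u j) (u j + ν), ‖f x‖ ^ 2) + (81 / 200) / (C1 * T) * ∫ x, ‖f x‖ ^ 2 * χ (x - j) ^ 2 := by
    intro j
    obtain ⟨hu1, hu2⟩ := hu j
    have h1 := hL (fat (1 / 16) X) _ (u j + ν / 2) hPor (hPRD X f κ (1 / 16) j (by norm_num) hf hκc hκs hκi)
    simp only [hsq] at h1
    rw [intervalIntegral.integral_of_le (by linarith), intervalIntegral.integral_of_le (by linarith)] at h1
    have e1 : u j + ν / 2 - ν / 2 = u j := by ring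
    have e2 : u j + ν / 2 + ν / 2 = u j + ν := by ring
    rw [e1, e2] at h1
    have h2 : (81 / 100) * ∫ x in Ioc (j : ℝ) (j + 1), ‖f x‖ ^ 2 ≤ ∫ x in Ioc (j : ℝ) (j + 1), ‖f x‖ ^ 2 * χ (x - j) ^ 2 := by
      rw [← integral_const_mul]
      refine setIntegral_mono_on (hg.integrableOn.const_mul _) (hgi j).integrableOn measurableSet_Ioc (fun x hx => ?_)
      have h3 : 9 / 10 ≤ χ (x - j) := hχ9 _ (by rw [abs_of_nonneg (by linarith [hx.1])]; linarith [hx.2])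
      have h4 : 81 / 100 ≤ χ (x - j) ^ 2 := by nlinarith
      have := mul_le_mul_of_nonneg_left h4 (hg0 x)
      linarith
    have h3 : ∫ x in Ioc (j : ℝ) (j + 1), ‖f x‖ ^ 2 * χ (x - j) ^ 2 ≤ ∫ x in Ioc (u j + ν / 2 - 1) (u j + ν / 2 + 1), ‖f x‖ ^ 2 * χ (x - j) ^ 2 := by
      refine setIntegral_mono_set (hgi j).integrableOn (Eventually.of_forall fun x => by positivity) ?_
      exact (Ioc_subset_Ioc (by linarith) (by linarith)).eventuallyLE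
    have h4 : ∫ x in Ioc (u j) (u j + ν), ‖f x‖ ^ 2 * χ (x - j) ^ 2 ≤ ∫ x in Ioc (u j) (u j + ν), ‖f x‖ ^ 2 := by
      refine setIntegral_mono (hgi j).integrableOn hg.integrableOn (fun x => ?_)
      have := mul_le_mul_of_nonneg_left (hχ2 (x - j)) (hg0 x)
      simpa using this
    have h5 := mul_le_mul_of_nonneg_left h4 hC.le
    linarith
  -- the two sums
  have hS1 : HasSum (fun j : ℤ => ∫ x in Ioc (j : ℝ) (j + 1), ‖f x‖ ^ 2) (∫ x, ‖f x‖ ^ 2) := by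
    have h := hasSum_integral_iUnion (μ := volume) (f := fun x => ‖f x‖ ^ 2) (s := fun j : ℤ => Ioc (j : ℝ) (j + 1)) (fun j => measurableSet_Ioc)
      (pairwise_disjoint_Ioc_intCast ℝ) hg.integrableOn
    rwa [iUnion_Ioc_intCast, Measure.restrict_univ] at h
  have hS2 : HasSum (fun j : ℤ => ∫ x in Ioc (u j) (u j + ν), ‖f x‖ ^ 2) (∫ x in ⋃ j : ℤ, Ioc (u j) (u j + ν), ‖f x‖ ^ 2) := by
    refine hasSum_integral_iUnion (μ := volume) (f := fun x => ‖f x‖ ^ 2) (s := fun j : ℤ => Ioc (u j) (u j + ν)) (fun j => measurableSet_Ioc) ?_ hg.integrableOn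
    intro i j hij
    exact (pairwise_disjoint_Ioc_intCast ℝ hij).mono (Ioc_subset_Ioc (hu i).1 (hu i).2) (Ioc_subset_Ioc (hu j).1 (hu j).2)
  have hfin : ∀ Q : Finset ℤ, (81 / 100) * ∑ j ∈ Q, ∫ x in Ioc (j : ℝ) (j + 1), ‖f x‖ ^ 2 ≤
      C * (∑ j ∈ Q, ∫ x in Ioc (u j) (u j + ν), ‖f x‖ ^ 2) + (81 / 200) * ∫ x, ‖f x‖ ^ 2 := by
    intro Q
    have h1 : ∑ j ∈ Q, ∫ x, ‖f x‖ ^ 2 * χ (x - j) ^ 2 ≤ (C1 * T) * ∫ x, ‖f x‖ ^ 2 := by
      rw [← integral_finset_sum Q (fun j _ => hgi j), ← integral_const_mul]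
      refine integral_mono (integrable_finset_sum Q (fun j _ => hgi j)) (hg.const_mul _) (fun x => ?_)
      have h2 : ∑ j ∈ Q, χ (x - j) ^ 2 ≤ C1 * T := by
        calc ∑ j ∈ Q, χ (x - j) ^ 2 ≤ ∑ j ∈ Q, C1 * (1 / (1 + (x - j) ^ 2)) := Finset.sum_le_sum (fun j _ => hχ2' _)
          _ = C1 * ∑ j ∈ Q, 1 / (1 + (x - j) ^ 2) := by rw [Finset.mul_sum]
          _ ≤ C1 * T := mul_le_mul_of_nonneg_left (hTb x Q) hC1.le
      have h3 := mul_le_mul_of_nonneg_left h2 (hg0 x)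
      rw [Finset.mul_sum] at h3
      simp only
      linarith
    have h2 := Finset.sum_le_sum (fun j (_ : j ∈ Q) => key j)
    rw [Finset.sum_add_distrib, ← Finset.mul_sum, ← Finset.mul_sum, ← Finset.mul_sum] at h2
    have h3 := mul_le_mul_of_nonneg_left h1 (show 0 ≤ (81 / 200) / (C1 * T) by positivity)
    have h4 : (81 / 200) / (C1 * T) * ((C1 * T) * ∫ x, ‖f x‖ ^ 2) = (81 / 200) * ∫ x, ‖f x‖ ^ 2 := by
      rw [← mul_assoc, div_mul_cancel₀ _ hC2.ne']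
    linarith
  have hlim : (81 / 100) * ∫ x, ‖f x‖ ^ 2 ≤ C * (∫ x in ⋃ j : ℤ, Ioc (u j) (u j + ν), ‖f x‖ ^ 2) + (81 / 200) * ∫ x, ‖f x‖ ^ 2 := by
    refine le_of_tendsto_of_tendsto' (Tendsto.const_mul (81 / 100) hS1) ((Tendsto.const_mul C hS2).add_const _) hfin
  have hsub : ∫ x in ⋃ j : ℤ, Ioc (u j) (u j + ν), ‖f x‖ ^ 2 ≤ ∫ x in {x | ∃ j : ℤ, u j ≤ x ∧ x ≤ u j + ν}, ‖f x‖ ^ 2 := by
    refine setIntegral_mono_set hg.integrableOn (Eventually.of_forall fun x => by positivity) ?_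
    refine HasSubset.Subset.eventuallyLE ?_
    intro x hx
    obtain ⟨j, hj⟩ := mem_iUnion.1 hx
    exact ⟨j, hj.1.le, hj.2⟩
  have hG : 0 ≤ ∫ x, ‖f x‖ ^ 2 := integral_nonneg hg0
  have h1 : (81 / 200) * ∫ x, ‖f x‖ ^ 2 ≤ C * ∫ x in {x | ∃ j : ℤ, u j ≤ x ∧ x ≤ u j + ν}, ‖f x‖ ^ 2 := by
    have := mul_le_mul_of_nonneg_left hsub hC.le
    linarith
  calc min 1 ((81 / 200) / C) * ∫ x, ‖f x‖ ^ 2 ≤ (81 / 200) / C * ∫ x, ‖f x‖ ^ 2 := mul_le_mul_of_nonneg_right (min_le_right _ _) hG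
    _ ≤ ∫ x in {x | ∃ j : ℤ, u j ≤ x ∧ x ≤ u j + ν}, ‖f x‖ ^ 2 := by
        rw [div_mul_eq_mul_div, div_le_iff₀ hC]
        linarith

end Pool.Agent.FD
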